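import Pool.Agent.Lib.P3f3a3b.ChromAux

/-!
The chromatic index of indifference graphs.
-/

namespace Pool.Agent.Results.MP_3f3a3b_co.ChromaticIndex

open Pool.Agent.Lib.P3f3a3b.Chrom

universe u

open Classical in
/-- The chromatic index of a finite indifference graph is `Δ + 1` if the graph is
neighbourhood-overfull and `Δ` otherwise. -/
theorem result {V : Type u} [Fintype V] (G : SimpleGraph V) (hG : Indifference G) :
    (G.lineGraph.chromaticNumber = G.maxDegree + 1 ↔ NbhdOverfull G) ∧
    (G.lineGraph.chromaticNumber = G.maxDegree ↔ ¬ NbhdOverfull G) :=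
  chrom_index G hG

end Pool.Agent.Results.MP_3f3a3b_co.ChromaticIndex
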